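import Mathlib
import Pool.Agent.Run7.h422.HF.Fin2
import Pool.Agent.W578.SD.UD
import Pool.Agent.W333.SDNGN
import Pool.Agent.W45.SD.AW
import Pool.Agent.W366.SDNL
import Pool.Agent.W930.RT.Nq
import Pool.Agent.W723.RT.CG
import Pool.Agent.W215.RT.Kc
import Pool.Agent.W723.RT.ID
import Pool.Agent.W461.RT.Cm
import Pool.Agent.W469.RT.Jen
import Pool.Agent.W469.RT.Sup
import Pool.Agent.W333.RT.Zb
import Pool.Agent.W973.QP.TG
import Pool.Agent.W215.QP.Fe
import Pool.Agent.W305.QP.Rel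
import Pool.Agent.W372.QP.Cnt
import Pool.Agent.H423R2.RGL.FGF
import Pool.Agent.H423R2.RGL.CGF
import Pool.Agent.H423R2.RGL.DEN
import Pool.Agent.H423R2.RGL.GRW

set_option autoImplicit false

/-!
# The heat flow of completed quadratic L-functions near the central point

Let `χ` be a nontrivial primitive quadratic Dirichlet character of conductor `N` and
`Λ_χ(s) = N^(s/2) Λ(s, χ)` its completed L-function. Its heat flow is `Λ_{χ,t} = exp (t D²) Λ_χ`,
`D = d/ds`, the family of de Bruijn, Newman and Stopple: `L(s, χ) ≠ 0` on `(0, 1)` (the question of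
`MP_0016c7_nt`) says that `Λ_{χ,0} > 0` on `(0, 1)`, and the Riemann hypothesis for `L(s, χ)` says
that for all `t > 0` all zeros of `Λ_{χ,t}` are on the line `Re s = 1/2`.

We prove unconditionally that for all but a proportion `C exp (- c R)` of the characters of
conductor at most `X` the functions `Λ_{χ,t}` have both properties near the point `1/2` as soon as
`t ≥ R / log² X`: they are positive on the real interval `|σ - 1/2| ≤ c`, and all zeros in the box
`|Re s - 1/2| ≤ c`, `|Im s| ≤ t log X / 4` are simple and on the line `Re s = 1/2`. The time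
`1 / log² X` is the square of the mean distance of the zeros near `1/2`, and the height
`t log X / 4` is many times the mean distance if `R` is large.

The family of characters is treated by the starting modules `Pool.Agent.W169.RT` and others
(helpers 169, 215, 305, 333, 372, 461, 469, 723, 930, 973), the local theory of the heat flow by
`Pool.Agent.W186.SD` (helper186 and others). New: `Pool.Agent.Run7.h422.HF` (the local theorem on
the heat flow at many scales for a function which grows at most like a Gamma function, and the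
growth of the completed L-functions).
-/

namespace Pool.Agent.Results.MP_0016c7_nt.HeatFlow

/-- The pairs `(N, χ)`, `1 ≤ N ≤ X`, with `χ` a nontrivial primitive quadratic Dirichlet character
modulo `N`. -/
def Quadratic (X : ℕ) : Set (Σ N : ℕ, DirichletCharacter ℂ N) :=
  {p | (p.1 ≠ 0 ∧ p.2.IsPrimitive ∧ p.2 ^ 2 = 1 ∧ p.2 ≠ 1) ∧ p.1 ≤ X}

/-- The completed L-function `Λ_χ(s) = N^(s/2) Λ(s, χ)`. -/
noncomputable def Lam {N : ℕ} [NeZero N] (χ : DirichletCharacter ℂ N) (s : ℂ) : ℂ :=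
  (N : ℂ) ^ (s / 2) * DirichletCharacter.completedLFunction χ s

/-- The heat flow `F_t = exp (t D²) F` (`D = d/ds`, `t > 0`) as a Gaussian average:
`F_t(s) = π^(-1/2) ∫ exp (-v²) F(s + 2 √t v) dv`. -/
noncomputable def heat (t : ℝ) (F : ℂ → ℂ) (s : ℂ) : ℂ :=
  ((1 / Real.sqrt Real.pi : ℝ) : ℂ) *
    ∫ v : ℝ, ((Real.exp (-v ^ 2) : ℝ) : ℂ) * F (s + ((2 * Real.sqrt t * v : ℝ) : ℂ))

/-- For all times `t` with `R ≤ t log² X` and `t log X ≤ c`: (i) `Λ_{χ,t}` has positive real part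
on the real interval `[1/2 - c, 1/2 + c]`; (ii) all zeros of `Λ_{χ,t}` in the box
`|Re s - 1/2| ≤ c`, `|Im s| ≤ t log X / 4` lie on the critical line and are simple. -/
def HeatGood (c : ℝ) (X : ℕ) (R : ℝ) (p : Σ N : ℕ, DirichletCharacter ℂ N) : Prop :=
  ∃ _ : NeZero p.1, ∀ t : ℝ, R ≤ t * Real.log X ^ 2 → t * Real.log X ≤ c →
    (∀ σ : ℝ, |σ - 1 / 2| ≤ c → 0 < (heat t (Lam p.2) (σ : ℂ)).re) ∧
    (∀ s : ℂ, |s.re - 1 / 2| ≤ c → |s.im| ≤ t * Real.log X / 4 → heat t (Lam p.2) s = 0 →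
      s.re = 1 / 2 ∧ deriv (heat t (Lam p.2)) s ≠ 0)

open Pool.Agent.H306R2.RZ Pool.Agent.H306R2.RG

/-- **Theorem.** There are `C, c > 0` such that for all `X ≥ 2` and all `R ≥ 0`, for all but a
proportion `C exp (- c R)` of the real primitive characters `χ` of conductor at most `X`, the heat
flow of `Λ_χ` is good in the above sense at all times `t`, `R / log² X ≤ t ≤ c / log X`. -/
theorem result : ∃ C c : ℝ, 0 < C ∧ 0 < c ∧ ∀ (X : ℕ) (R : ℝ), 2 ≤ X → 0 ≤ R →
    (Quadratic X).Finite ∧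
      ((Quadratic X ∩ {p | ¬ HeatGood c X R p}).ncard : ℝ) ≤
        C * Real.exp (-(c * R)) * ((Quadratic X).ncard : ℝ) := by
  obtain ⟨-, hG⟩ := LnkD.GRW LnkC.CGF (LnkC.DEN (F8 1) ⟨1, Or.inl rfl, Or.inl rfl⟩)
  have hZB := Pool.Agent.W333.RT.zb
    (Pool.Agent.W469.RT.Sup.sup_of Pool.Agent.W461.RT.cm Pool.Agent.W723.RT.id_of)
    Pool.Agent.W973.QP.tg Pool.Agent.W469.RT.Jen.jen Pool.Agent.W723.RT.id_of LnkA.FGF LnkC.CGF
    Pool.Agent.W215.QP.fe Pool.Agent.W305.QP.rel
  have hNQ := Pool.Agent.W930.RT.nq Pool.Agent.W461.RT.cm Pool.Agent.W723.RT.cg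
    Pool.Agent.W215.RT.kc Pool.Agent.W973.QP.tg Pool.Agent.W723.RT.id_of LnkA.FGF LnkC.CGF
  obtain ⟨C, c, hC, hc, h⟩ := Run7.h422.HF.main_heat Pool.Agent.W372.QP.cnt_sum hZB hNQ
    Pool.Agent.W723.RT.id_of Pool.Agent.W215.QP.fe
    Pool.Agent.W305.QP.rel LnkA.FGF LnkC.CGF hG
    (Run7.h422.HF.loh_of Pool.Agent.W578.SD.UD.ud Pool.Agent.W333.SDNGN.ngn
      Pool.Agent.W45.SD.aw (Pool.Agent.W366.SDNL.nl Pool.Agent.W578.SD.UD.ud))
  refine ⟨C, c / 2, hC, by positivity, fun X R hX hR => ?_⟩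
  obtain ⟨h1, h2⟩ := h X (R / 2) hX (by positivity)
  have e : -(c * (R / 2)) = -(c / 2 * R) := by ring
  rw [e] at h2
  refine ⟨h1, le_trans ?_ h2⟩
  have hsub : (Quadratic X ∩ {p | ¬ HeatGood (c / 2) X R p}) ⊆
      ((LnkC.RPC ∩ {p | p.1 ≤ X}) ∩ {p | ¬ Run7.h422.HF.HeatG c X (R / 2) p}) := by
    rintro p ⟨hp1, hp2⟩
    refine ⟨hp1, fun hp3 => hp2 ?_⟩
    obtain ⟨hN, hp3⟩ := hp3
    refine ⟨hN, fun t ht htX => ?_⟩
    obtain ⟨h3, h4⟩ := hp3 t (by linarith) (by linarith)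
    exact ⟨fun σ hσ => h4 σ (by linarith), fun s hs1 hs2 hs3 => h3 s (by linarith) hs2 hs3⟩
  exact_mod_cast Set.ncard_le_ncard hsub (h1.subset Set.inter_subset_left)

end Pool.Agent.Results.MP_0016c7_nt.HeatFlow
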