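import Pool.Agent.Run7.h473.OC.Main

set_option autoImplicit false

/-!
# Octic extensions of multiquadratic fields without real zeros in `(0,1)`

Real characters `a₀, a₁, a₂` are chosen one after the other. For a positive proportion of them all
seven products have an L-function without zeros in `(0,1)`; and with the density Hales-Jewett
theorem one gets, for every `r`, multiquadratic fields `F ⊂ K` with `[F : ℚ] = 2 ^ r` and
`[K : F] = 8` such that the same holds for all `7 * 2 ^ r` real characters of `K` that are not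
characters of `F`.
-/

namespace Pool.Agent.Results.MP_0016c7_nt.OcticOverMultiquadratic

/-- A modulus and a Dirichlet character modulo it. -/
abbrev Char : Type := Σ N : ℕ, DirichletCharacter ℂ N

/-- The pairs `(N, χ)` with `1 ≤ N ≤ X` and `χ` a nontrivial primitive quadratic Dirichlet
character modulo `N` such that `χ(-1) = s` and `χ(p) = c p` for all `p ∈ S`. -/
def Class (S : Finset ℕ) (c : ℕ → ℤ) (s : ℤ) (X : ℕ) : Set Char :=
  {p | p.1 ≠ 0 ∧ p.1 ≤ X ∧ p.2.IsPrimitive ∧ p.2 ^ 2 = 1 ∧ p.2 ≠ 1 ∧ p.2 (-1) = (s : ℂ) ∧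
    ∀ q ∈ S, p.2 (q : ZMod p.1) = (c q : ℂ)}

/-- `ψ` is a primitive character with `ψ² = 1` whose conductor is odd and divisible by no prime of
`S`. -/
def Twister (S : Finset ℕ) (Q : Char) : Prop :=
  Odd Q.1 ∧ Q.2.IsPrimitive ∧ Q.2 ^ 2 = 1 ∧ ∀ p ∈ S, ¬ p ∣ Q.1

/-- the values of a character -/
noncomputable def val (a : Char) : ℕ → ℂ := fun p => a.2 (p : ZMod a.1)

/-- `ω(p) = g(p)` for all large primes `p`. If `g` is a product of finitely many real characters
these are the character of the product and the characters of other moduli induced by the same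
primitive character. -/
def Attached (g : ℕ → ℂ) {N : ℕ} (ω : DirichletCharacter ℂ N) : Prop :=
  ∃ B : ℕ, ∀ p : ℕ, p.Prime → B ≤ p → ω (p : ZMod N) = g p

/-- There are Dirichlet characters `ω` with `ω(p) = g(p)` for all large primes `p`, and all of them
satisfy: `L(s,ω)` is real and positive for `0 < s < 1`. -/
def Good (g : ℕ → ℂ) : Prop :=
  (∃ (N : ℕ) (_ : NeZero N) (ω : DirichletCharacter ℂ N), Attached g ω) ∧
  ∀ (N : ℕ) (_ : NeZero N) (ω : DirichletCharacter ℂ N), Attached g ω →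
    ∀ s : ℝ, 0 < s → s < 1 → (DirichletCharacter.LFunction ω (s : ℂ)).im = 0 ∧
      0 < (DirichletCharacter.LFunction ω (s : ℂ)).re

/-- For all large `X` the property `P` holds for a proportion of at least `κ` of the members of
`C X`. -/
def Often (κ : ℝ) (C : ℕ → Set Char) (P : Char → Prop) : Prop :=
  ∃ X0 : ℕ, ∀ X : ℕ, X0 ≤ X → κ * ((C X).ncard : ℝ) ≤ ((C X ∩ {a | P a}).ncard : ℝ)

/-- **Theorem.** Let `S` be a finite set of primes containing `2`; prescribe for `i = 0, 1, 2` a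
parity `s i` and values `c i p` at the primes `p ∈ S` (`± 1`; for `i = 2` also `0` is allowed).

* The classes of real primitive characters so defined have at least `κ X` members of conductor at
  most `X`, for some `κ > 0`.
* For at least 86.49 percent of the `a₀` of the first class, for at least 72.98 percent of the `a₁`
  of the second class, for at least 45.96 percent of the `a₂` of the third class, the L-functions
  of all seven nonempty products of `a₀, a₁, a₂` are positive on `(0,1)`.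
* For every `r` there is `m` such that, for every choice of the above data and of `m` real primitive
  characters `y₁, …, y_m` of odd conductors prime to `S`: for at least 1 percent of the `a₀`, for at
  least 1 percent of the `a₁`, for at least 1 percent of the `a₂`, there are disjoint nonempty sets
  `J₁, …, J_r ⊆ {1, …, m}` and sets `H₀, H₁, H₂` disjoint from them such that, for
  `z_j = ∏_{l ∈ J_j} y_l` and `b_i = a_i ∏_{l ∈ H_i} y_l`, the L-functions of all
  `7 * 2 ^ r` products of a nonempty set of the `b_i` and any set of the `z_j` are positive on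
  `(0,1)`. -/
theorem result :
    (∀ (S : Finset ℕ), (∀ p ∈ S, p.Prime) → ∀ c : ℕ → ℤ,
      (∀ p ∈ S, c p = 0 ∨ c p = 1 ∨ c p = -1) → ∀ s : ℤ, (s = 1 ∨ s = -1) →
      (∀ X : ℕ, (Class S c s X).Finite) ∧ ∃ κ : ℝ, 0 < κ ∧ ∃ X0 : ℕ, ∀ X : ℕ, X0 ≤ X →
        κ * (X : ℝ) ≤ ((Class S c s X).ncard : ℝ)) ∧
    (∀ (S : Finset ℕ), (∀ p ∈ S, p.Prime) → 2 ∈ S → ∀ c : Fin 3 → ℕ → ℤ,
      (∀ p ∈ S, c 0 p = 1 ∨ c 0 p = -1) → (∀ p ∈ S, c 1 p = 1 ∨ c 1 p = -1) →
      (∀ p ∈ S, c 2 p = 0 ∨ c 2 p = 1 ∨ c 2 p = -1) →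
      ∀ s : Fin 3 → ℤ, (∀ i, s i = 1 ∨ s i = -1) →
      Often (8649 / 10000) (Class S (c 0) (s 0)) fun a0 =>
      Often (7298 / 10000) (Class S (c 1) (s 1)) fun a1 =>
      Often (4596 / 10000) (Class S (c 2) (s 2)) fun a2 =>
        ∀ e : Finset (Fin 3), e.Nonempty →
          Good (fun p => ∏ i ∈ e, val ((![a0, a1, a2] : Fin 3 → Char) i) p)) ∧
    (∀ r : ℕ, ∃ m : ℕ, ∀ (S : Finset ℕ), (∀ p ∈ S, p.Prime) → 2 ∈ S → ∀ c : Fin 3 → ℕ → ℤ,
      (∀ p ∈ S, c 0 p = 1 ∨ c 0 p = -1) → (∀ p ∈ S, c 1 p = 1 ∨ c 1 p = -1) →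
      (∀ p ∈ S, c 2 p = 0 ∨ c 2 p = 1 ∨ c 2 p = -1) →
      ∀ s : Fin 3 → ℤ, (∀ i, s i = 1 ∨ s i = -1) →
      ∀ y : Fin m → Char, (∀ l, Twister S (y l)) →
      Often (1 / 100) (Class S (c 0) (s 0)) fun a0 =>
      Often (1 / 100) (Class S (c 1) (s 1)) fun a1 =>
      Often (1 / 100) (Class S (c 2) (s 2)) fun a2 =>
        ∃ (H : Fin 3 → Finset (Fin m)) (J : Fin r → Finset (Fin m)), (∀ j, (J j).Nonempty) ∧
          (∀ j j', j ≠ j' → Disjoint (J j) (J j')) ∧ (∀ i j, Disjoint (H i) (J j)) ∧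
          ∀ e : Finset (Fin 3), e.Nonempty → ∀ f : Finset (Fin r),
            Good (fun p => (∏ i ∈ e, (val ((![a0, a1, a2] : Fin 3 → Char) i) p *
              ∏ l ∈ H i, val (y l) p)) * ∏ j ∈ f, ∏ l ∈ J j, val (y l) p)) := by
  refine ⟨fun S hS c hc s hs => ⟨Pool.Agent.Run7.h473.OC.Class_fin S hS c hc s hs,
    Pool.Agent.Run7.h473.OC.Class_size S hS c hc s hs⟩, ?_, ?_⟩
  · intro S hS h2 c hc0 hc1 hc2 s hs
    exact Pool.Agent.Run7.h473.OC.octic Pool.Agent.Run7.h473.OC.engine S hS h2 c hc0 hc1 hc2 s hs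
  · intro r
    obtain ⟨m, hm⟩ := Pool.Agent.Run7.h473.OC.main Pool.Agent.Run7.h473.OC.engine r
    exact ⟨m, fun S hS h2 c hc0 hc1 hc2 s hs y hy => hm S hS h2 c hc0 hc1 hc2 s hs y hy⟩

end Pool.Agent.Results.MP_0016c7_nt.OcticOverMultiquadratic
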