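import Pool.Agent.Run7.h453.QZ.Sym

/-!
# The number of the real zeros of a quadratic L-function as a limit of sums over the prime powers

Let `χ` be a nontrivial quadratic Dirichlet character, `γ > π/2` and, for real `σ` and `T > 0`,

`V(σ,T) = ∑_{n ≥ 2} Λ(n) χ(n) / (n^σ log n) · exp(iγ log n / T) / Γ(1 + log n / T)`,

an absolutely convergent series (the weight of each single `n` tends to `1` as `T → ∞`).  Without any
hypothesis on zeros it is proved that for every real `σ`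

`V(σ,T) = -m (log T - Λ_γ) + log |L^(m)(σ,χ) / m!| - π i Z(σ) + O(1/T)`,

where `m` is the multiplicity of `σ` as a zero of `L(s,χ)` and `Z(σ)` is the number of the zeros in the
interval `(σ,1)`, counted with multiplicity.  So the number of the zeros of `L(s,χ)` in `(0,1)` is the limit
of `-(1/π) (Im V(0,T) + Im Λ_γ · Re V(0,T) / log T)`, and `L(s,χ)` is positive on `(0,1)`, as the question
asks for all `χ`, if and only if this limit is `0`, if and only if `V(1/2,T)` converges to a real number, if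
and only if for one sequence `T_k → ∞` the real parts of `V(1/2,T_k)` are bounded and their imaginary parts
are at most `c < π` in absolute value.

The proof uses the rotated law of the starting modules `Pool.Agent.N41.RM` (an Euler product with real
coefficients and its Hankel mean on a contour that passes the real zeros on one side).
-/

set_option autoImplicit false

open Filter Topology Set

namespace Pool.Agent.Results.MP_0016c7_nt.RealZeroCount

variable {N : ℕ}

/-- The term of `V(σ,T)`; it vanishes unless `n` is a prime power. -/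
noncomputable def term (χ : DirichletCharacter ℂ N) (γ σ T : ℝ) (n : ℕ) : ℂ :=
  ((ArithmeticFunction.vonMangoldt n : ℝ) : ℂ) * χ (n : ZMod N) /
      (((n : ℝ) ^ σ * Real.log n : ℝ) : ℂ) *
    (Complex.exp ((γ * (Real.log n / T) : ℝ) * Complex.I) / (Real.Gamma (1 + Real.log n / T) : ℂ))

/-- `V(σ,T)` -/
noncomputable def V (χ : DirichletCharacter ℂ N) (γ σ T : ℝ) : ℂ := ∑' n : ℕ, term χ γ σ T n

/-- `Λ_γ = ∫_0^∞ (e^{-u} - e^{iγu} / Γ(1 + u)) du / u` -/
noncomputable def Lam (γ : ℝ) : ℂ := ∫ u in Set.Ioi (0 : ℝ),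
  (Complex.exp (-(u : ℂ)) - Complex.exp ((γ * u : ℝ) * Complex.I) * ((Real.Gamma (1 + u))⁻¹ : ℝ)) / u

/-- The multiplicity of `σ` as a zero of `L(s,χ)`: the least `m` such that the `m`-th derivative at `σ` is
not zero. -/
noncomputable def mult [NeZero N] (χ : DirichletCharacter ℂ N) (σ : ℝ) : ℕ :=
  sInf {m : ℕ | iteratedDeriv m (DirichletCharacter.LFunction χ) (σ : ℂ) ≠ 0}

/-- The number of the zeros of `L(s,χ)` in the real interval `(σ,1)`, counted with multiplicity. -/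
noncomputable def zeros [NeZero N] (χ : DirichletCharacter ℂ N) (σ : ℝ) : ℤ :=
  ∑ᶠ x ∈ Set.Ioo σ 1, (analyticOrderNatAt (DirichletCharacter.LFunction χ) ((x : ℝ) : ℂ) : ℤ)

/-- The law at the point `σ`. -/
def Law [NeZero N] (χ : DirichletCharacter ℂ N) (γ σ : ℝ) : Prop :=
  iteratedDeriv (mult χ σ) (DirichletCharacter.LFunction χ) (σ : ℂ) ≠ 0 ∧
    (fun T : ℝ => V χ γ σ T - (-(mult χ σ) * (Real.log T - Lam γ) +
      Real.log (‖iteratedDeriv (mult χ σ) (DirichletCharacter.LFunction χ) (σ : ℂ)‖ /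
        (mult χ σ).factorial) - Real.pi * zeros χ σ * Complex.I)) =O[atTop] (fun T : ℝ => 1 / T)

section aux

variable [NeZero N] {χ : DirichletCharacter ℂ N}

theorem count (h1 : χ ≠ 1) (h2 : χ ^ 2 = 1) {γ : ℝ} (hγ : Real.pi / 2 < γ) (σ : ℝ) :
    Tendsto (fun T : ℝ => (V χ γ σ T).im + (Lam γ).im * ((V χ γ σ T).re / Real.log T)) atTop
      (𝓝 (-(Real.pi * zeros χ σ))) := by
  have h3 := Pool.Agent.N41.RM.im_of_law (Pool.Agent.Run7.h453.QZ.law' h1 h2 hγ σ)
  have h4 : ∀ (x : ℝ) (n : ℤ), ((x : ℂ) - Real.pi * n * Complex.I).im = -(Real.pi * n) := by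
    intro x n
    simp
  rw [h4] at h3
  exact h3

/-- a law with multiplicity `0` -/
theorem free (h1 : χ ≠ 1) (h2 : χ ^ 2 = 1) {γ : ℝ} (hγ : Real.pi / 2 < γ) {σ : ℝ}
    (hm : mult χ σ = 0) :
    Tendsto (fun T : ℝ => V χ γ σ T) atTop
      (𝓝 (Real.log ‖DirichletCharacter.LFunction χ (σ : ℂ)‖ - Real.pi * zeros χ σ * Complex.I)) := by
  have h3 := Pool.Agent.N41.RM.tendsto_of_law (Pool.Agent.Run7.h453.QZ.law' h1 h2 hγ σ)
  have hm' : Pool.Agent.Run7.h453.QZ.mul χ σ = 0 := hm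
  rw [hm'] at h3
  have h4 := h3.add_const ((Real.log ‖DirichletCharacter.LFunction χ (σ : ℂ)‖ : ℂ) -
    Real.pi * zeros χ σ * Complex.I)
  rw [zero_add] at h4
  refine h4.congr fun T => ?_
  simp only [iteratedDeriv_zero, Nat.factorial_zero, Nat.cast_zero, Nat.cast_one, div_one, neg_zero,
    Int.cast_zero, zero_mul, zero_add]
  show _ - _ + _ = V χ γ σ T
  have e1 : (∑' n, Pool.Agent.Run7.h453.QZ.term χ γ σ T n) = V χ γ σ T := rfl
  have e2 : Pool.Agent.Run7.h453.QZ.cnt χ σ = zeros χ σ := rfl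
  rw [e1, e2]
  ring

/-- a zero at `σ` makes the real part tend to `-∞` -/
theorem blow (h1 : χ ≠ 1) (h2 : χ ^ 2 = 1) {γ : ℝ} (hγ : Real.pi / 2 < γ) {σ : ℝ}
    (hm : mult χ σ ≠ 0) : Tendsto (fun T : ℝ => (V χ γ σ T).re) atTop atBot := by
  have h3 := Pool.Agent.N41.RM.re_of_law (Pool.Agent.Run7.h453.QZ.law' h1 h2 hγ σ)
  have h4 : ((-(Pool.Agent.Run7.h453.QZ.mul χ σ : ℤ) : ℤ) : ℝ) < 0 := by
    have h5 : (0 : ℝ) < (mult χ σ : ℕ) := by exact_mod_cast Nat.pos_of_ne_zero hm
    have h6 : Pool.Agent.Run7.h453.QZ.mul χ σ = mult χ σ := rfl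
    rw [h6]
    push_cast
    linarith
  have h5 := h3.neg_mul_atTop h4 Real.tendsto_log_atTop
  refine h5.congr' ?_
  filter_upwards [eventually_gt_atTop 1] with T hT
  have h6 : Real.log T ≠ 0 := (Real.log_pos hT).ne'
  exact div_mul_cancel₀ _ h6

theorem zeros_zero_iff (h1 : χ ≠ 1) (h2 : χ ^ 2 = 1) (σ : ℝ) :
    zeros χ σ = 0 ↔ ∀ x : ℝ, σ < x → x < 1 → DirichletCharacter.LFunction χ (x : ℂ) ≠ 0 :=
  Pool.Agent.Run7.h453.QZ.cnt_zero_iff h1 h2 σ

theorem mult_zero_iff (h1 : χ ≠ 1) (h2 : χ ^ 2 = 1) {γ : ℝ} (hγ : Real.pi / 2 < γ) (σ : ℝ) :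
    mult χ σ = 0 ↔ DirichletCharacter.LFunction χ (σ : ℂ) ≠ 0 :=
  Pool.Agent.N41.RM.mul0_eq_zero_iff (Pool.Agent.Run7.h453.QZ.law h1 h2 hγ σ).1

end aux

/-- **Theorem.** Let `χ` be a nontrivial quadratic Dirichlet character and `γ > π/2`.

* `V(σ,T)` converges absolutely for all real `σ` and `T > 0`.
* `L(s,χ)` has finitely many zeros in `(σ,1)`, and for every real `σ`, with the multiplicity `m` of `σ` as a
  zero and the number `Z(σ)` of the zeros in `(σ,1)`,
  `V(σ,T) = -m (log T - Λ_γ) + log |L^(m)(σ,χ) / m!| - π i Z(σ) + O(1/T)` as `T → ∞`.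
* For every real `σ`, `-(1/π) (Im V(σ,T) + Im Λ_γ · Re V(σ,T) / log T) → Z(σ)`; for `σ = 0` the limit is
  the number of the zeros in `(0,1)`.
* The following are equivalent: `L(s,χ) > 0` for all `0 < s < 1`;
  `Im V(0,T) + Im Λ_γ · Re V(0,T) / log T → 0`; `V(1/2,T)` converges to a real number; for one sequence
  `T_k → ∞` the real parts of `V(1/2,T_k)` are bounded and `|Im V(1/2,T_k)| ≤ c` with a constant
  `c < π`. -/
theorem result (N : ℕ) [NeZero N] (χ : DirichletCharacter ℂ N) (h1 : χ ≠ 1) (h2 : χ ^ 2 = 1) (γ : ℝ)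
    (hγ : Real.pi / 2 < γ) :
    (∀ σ T : ℝ, 0 < T → Summable fun n => ‖term χ γ σ T n‖) ∧
    (∀ σ : ℝ, {x : ℝ | σ < x ∧ x < 1 ∧ DirichletCharacter.LFunction χ (x : ℂ) = 0}.Finite) ∧
    (∀ σ : ℝ, Law χ γ σ) ∧
    (∀ σ : ℝ, Tendsto (fun T : ℝ =>
      -(1 / Real.pi) * ((V χ γ σ T).im + (Lam γ).im * ((V χ γ σ T).re / Real.log T))) atTop
        (𝓝 (zeros χ σ))) ∧
    List.TFAE [
      ∀ s : ℝ, 0 < s → s < 1 → (DirichletCharacter.LFunction χ (s : ℂ)).im = 0 ∧
        0 < (DirichletCharacter.LFunction χ (s : ℂ)).re,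
      Tendsto (fun T : ℝ => (V χ γ 0 T).im + (Lam γ).im * ((V χ γ 0 T).re / Real.log T)) atTop
        (𝓝 0),
      ∃ a : ℝ, Tendsto (fun T : ℝ => V χ γ (1 / 2) T) atTop (𝓝 (a : ℂ)),
      ∃ (τ : ℕ → ℝ) (B c : ℝ), Tendsto τ atTop atTop ∧ c < Real.pi ∧
        ∀ k, |(V χ γ (1 / 2) (τ k)).re| ≤ B ∧ |(V χ γ (1 / 2) (τ k)).im| ≤ c] := by
  refine ⟨fun σ T hT => Pool.Agent.Run7.h453.QZ.summable_term h2 γ σ hT,
    fun σ => Pool.Agent.Run7.h453.QZ.fin_cnt h1 h2 σ,
    fun σ => Pool.Agent.Run7.h453.QZ.law h1 h2 hγ σ, fun σ => ?_, ?_⟩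
  · have h3 := (count h1 h2 hγ σ).const_mul (-(1 / Real.pi))
    have h4 : -(1 / Real.pi) * -(Real.pi * (zeros χ σ : ℝ)) = zeros χ σ := by
      field_simp
    rwa [h4] at h3
  · have hQ : (∀ s : ℝ, 0 < s → s < 1 → (DirichletCharacter.LFunction χ (s : ℂ)).im = 0 ∧
        0 < (DirichletCharacter.LFunction χ (s : ℂ)).re) ↔
        ∀ s : ℝ, 0 < s → s < 1 → DirichletCharacter.LFunction χ (s : ℂ) ≠ 0 := by
      constructor
      · intro h s hs hs1 h0
        have h3 := (h s hs hs1).2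
        rw [h0, Complex.zero_re] at h3
        exact lt_irrefl _ h3
      · intro h s hs hs1
        refine ⟨?_, Pool.Agent.Run7.h453.QZ.pos_of_ne h1 h2 (a := s)
          (fun x hx hx1 => h x (by linarith) hx1) s le_rfl hs1⟩
        rw [Pool.Agent.Run7.h453.QZ.real_L h1 h2 s, Complex.ofReal_im]
    have hQ2 : (∀ s : ℝ, 0 < s → s < 1 → DirichletCharacter.LFunction χ (s : ℂ) ≠ 0) ↔
        mult χ (1 / 2) = 0 ∧ zeros χ (1 / 2) = 0 := by
      rw [mult_zero_iff h1 h2 hγ, zeros_zero_iff h1 h2]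
      constructor
      · intro h
        exact ⟨h _ (by norm_num) (by norm_num), fun x hx hx1 => h x (by linarith) hx1⟩
      · rintro ⟨h3, h4⟩ s hs hs1 h0
        rcases lt_trichotomy s (1 / 2) with h5 | h5 | h5
        · exact h4 (1 - s) (by linarith) (by linarith)
            (Pool.Agent.Run7.h453.QZ.symm h1 h2 hs hs1 h0)
        · rw [h5] at h0
          exact h3 h0
        · exact h4 s h5 hs1 h0
    tfae_have 1 → 2 := by
      intro h
      have h3 := count h1 h2 hγ 0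
      rw [(zeros_zero_iff h1 h2 0).2 (hQ.1 h)] at h3
      simpa using h3
    tfae_have 2 → 1 := by
      intro h
      have h3 := tendsto_nhds_unique h (count h1 h2 hγ 0)
      have h4 : Real.pi * (zeros χ 0 : ℝ) = 0 := by linarith
      have h5 := (mul_eq_zero.1 h4).resolve_left Real.pi_ne_zero
      rw [hQ, ← zeros_zero_iff h1 h2]
      exact_mod_cast h5
    tfae_have 1 → 3 := by
      intro h
      obtain ⟨h3, h4⟩ := hQ2.1 (hQ.1 h)
      have h5 := free h1 h2 hγ h3
      rw [h4] at h5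
      refine ⟨_, by simpa using h5⟩
    tfae_have 3 → 4 := by
      rintro ⟨a, ha⟩
      have h3 : Tendsto (fun T : ℝ => (V χ γ (1 / 2) T).re) atTop (𝓝 a) := by
        have := (Complex.continuous_re.tendsto _).comp ha
        simpa [Function.comp_def] using this
      have h4 : Tendsto (fun T : ℝ => (V χ γ (1 / 2) T).im) atTop (𝓝 0) := by
        have := (Complex.continuous_im.tendsto _).comp ha
        simpa [Function.comp_def] using this
      have e1 : ∀ᶠ T : ℝ in atTop, |(V χ γ (1 / 2) T).re| ≤ |a| + 1 :=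
        (h3.abs).eventually (eventually_le_nhds (by linarith))
      have e2 : ∀ᶠ T : ℝ in atTop, |(V χ γ (1 / 2) T).im| ≤ 1 :=
        (h4.abs).eventually (eventually_le_nhds (by rw [abs_zero]; norm_num))
      obtain ⟨T₀, hT₀⟩ := eventually_atTop.1 (e1.and e2)
      refine ⟨fun k => T₀ + k, |a| + 1, 1, tendsto_atTop_add_const_left _ _ tendsto_natCast_atTop_atTop,
        by linarith [Real.pi_gt_three], fun k => hT₀ _ (by
          have : (0 : ℝ) ≤ k := Nat.cast_nonneg k
          linarith)⟩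
    tfae_have 4 → 1 := by
      rintro ⟨τ, B, c, hτ, hc, hk⟩
      rw [hQ, hQ2]
      have hm : mult χ (1 / 2) = 0 := by
        by_contra hm
        have h3 := (blow h1 h2 hγ hm).comp hτ
        obtain ⟨k, hk1⟩ := (h3.eventually (eventually_lt_atBot (-B))).exists
        have h4 := (abs_le.1 (hk k).1).1
        simp only [Function.comp] at hk1
        linarith
      refine ⟨hm, ?_⟩
      have h3 := (free h1 h2 hγ hm).comp hτ
      have h4 := (Complex.continuous_im.tendsto _).comp h3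
      have h5 : Tendsto (fun k => |(V χ γ (1 / 2) (τ k)).im|) atTop
          (𝓝 (Real.pi * |(zeros χ (1 / 2) : ℝ)|)) := by
        have h6 := h4.abs
        have e : |((Real.log ‖DirichletCharacter.LFunction χ ((1 / 2 : ℝ) : ℂ)‖ : ℂ) -
            Real.pi * zeros χ (1 / 2) * Complex.I).im| = Real.pi * |(zeros χ (1 / 2) : ℝ)| := by
          have : ((Real.log ‖DirichletCharacter.LFunction χ ((1 / 2 : ℝ) : ℂ)‖ : ℂ) -
            Real.pi * zeros χ (1 / 2) * Complex.I).im = -(Real.pi * zeros χ (1 / 2)) := by simp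
          rw [this, abs_neg, abs_mul, abs_of_pos Real.pi_pos]
        rw [e] at h6
        exact h6
      have h6 : Real.pi * |(zeros χ (1 / 2) : ℝ)| ≤ c := le_of_tendsto' h5 fun k => (hk k).2
      by_contra h7
      have h8 : (1 : ℝ) ≤ |(zeros χ (1 / 2) : ℝ)| := by
        have := Int.one_le_abs h7
        exact_mod_cast this
      nlinarith [Real.pi_pos]
    tfae_finish

end Pool.Agent.Results.MP_0016c7_nt.RealZeroCount
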