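import Mathlib
import Pool.Agent.Run7.h473.RM.A6

set_option autoImplicit false

/-!
# Short positivity certificates: logarithmic Riesz means of order a power of `log X` are positive

For a real character `χ ≠ 1` put `R_k(x) = ∑_{n ≤ x} χ(n) (log (x/n))^k`.  If some `R_k` is
nonnegative on `(1,∞)` then `L(s,χ) > 0` on `(0,1)`.  We show that for at least 86.4 percent of the
primitive quadratic characters `χ` of conductor at most `X` one has `R_k(x) > 0` for all `x > 1`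
already for all `k ≥ C (log X)^6`.
-/

open Set Filter Topology H353.LM

namespace Pool.Agent.Results.MP_0016c7_nt.RieszMeansPositive

/-- `R χ k x = ∑_{1 ≤ n ≤ x} χ(n) (log (x/n))^k` -/
noncomputable def R {N : ℕ} (χ : DirichletCharacter ℂ N) (k : ℕ) (x : ℝ) : ℝ :=
  ∑ n ∈ Finset.Icc 1 ⌊x⌋₊, (χ n).re * (Real.log (x / n)) ^ k

/-- The pairs `(N, χ)`, `1 ≤ N ≤ X`, with `χ` a nontrivial primitive quadratic Dirichlet character
modulo `N`. -/
def Quadratic (X : ℕ) : Set (Σ N : ℕ, DirichletCharacter ℂ N) :=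
  {p | (p.1 ≠ 0 ∧ p.2.IsPrimitive ∧ p.2 ^ 2 = 1 ∧ p.2 ≠ 1) ∧ p.1 ≤ X}

theorem R_exp {N : ℕ} (χ : DirichletCharacter ℂ N) (k : ℕ) (t : ℝ) :
    R χ k (Real.exp t) = (k.factorial : ℝ) * qq (av χ) k t := by
  unfold R qq av
  rw [mul_div_cancel₀ _ (by exact_mod_cast (Nat.factorial_pos k).ne')]
  refine Finset.sum_congr rfl fun n hn => ?_
  have hn1 : 1 ≤ n := (Finset.mem_Icc.mp hn).1
  have hn0 : (n:ℝ) ≠ 0 := by exact_mod_cast (by omega : n ≠ 0)
  rw [Real.log_div (Real.exp_pos t).ne' hn0, Real.log_exp]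

theorem R_pos {N : ℕ} (χ : DirichletCharacter ℂ N) (k : ℕ)
    (h : ∀ t : ℝ, 0 < t → 0 < qq (av χ) k t) (x : ℝ) (hx : 1 < x) : 0 < R χ k x := by
  have e : R χ k x = (k.factorial : ℝ) * qq (av χ) k (Real.log x) := by
    rw [← R_exp, Real.exp_log (by linarith)]
  rw [e]
  exact mul_pos (by exact_mod_cast Nat.factorial_pos k) (h _ (Real.log_pos hx))

/-- **Theorem.** There is `C > 0` such that

(1) if `χ` is a primitive quadratic character modulo `N > 1`, `0 < δ ≤ 1/4` and `L(s,χ) ≠ 0` for all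
`s` with `0 < Re s < 1`, `|Im s| ≤ δ`, then `∑_{n ≤ x} χ(n) (log (x/n))^k > 0` for all `x > 1` and
all `k ≥ C ((1 + log N)/δ)^3`;

(2) for all large `X`, at least 86.4 percent of the primitive quadratic characters `χ` of
conductor at most `X` satisfy `∑_{n ≤ x} χ(n) (log (x/n))^k > 0` for all `x > 1` and all
`k ≥ C (log X)^6`. -/
theorem result : ∃ C : ℝ, 0 < C ∧
    (∀ (N : ℕ) [NeZero N] (χ : DirichletCharacter ℂ N), 1 < N → χ.IsPrimitive → χ ^ 2 = 1 →
      ∀ δ : ℝ, 0 < δ → δ ≤ 1 / 4 →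
      (∀ s : ℂ, 0 < s.re → s.re < 1 → |s.im| ≤ δ → DirichletCharacter.LFunction χ s ≠ 0) →
      ∀ k : ℕ, C * ((1 + Real.log N) / δ) ^ 3 ≤ k → ∀ x : ℝ, 1 < x → 0 < R χ k x) ∧
    ∃ X0 : ℕ, ∀ X : ℕ, X0 ≤ X → (Quadratic X).Finite ∧
      (864 / 1000 : ℝ) * ((Quadratic X).ncard : ℝ) ≤
        ((Quadratic X ∩ {p | ∀ k : ℕ, C * (Real.log X) ^ 6 ≤ k → ∀ x : ℝ, 1 < x →
          0 < R p.2 k x}).ncard : ℝ) := by
  obtain ⟨C0, hC0, h⟩ := Pool.Agent.Run7.h473.RM.pos_main
  obtain ⟨c, hc, hc4, X0, hX0⟩ := Pool.Agent.Run7.h473.RM.strip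
  have hc2 : 1 ≤ 2 / c := by
    rw [le_div_iff₀ hc]
    linarith
  have hc3 : 1 ≤ (2 / c) ^ 3 := one_le_pow₀ hc2
  refine ⟨C0 * (2 / c) ^ 3, by positivity, ?_, max X0 3, fun X hX => ?_⟩
  · intro N _ χ hN hχ h2 δ hδ hδ1 hz k hk x hx
    refine R_pos χ k (h N χ hN hχ h2 δ hδ hδ1 hz k (le_trans ?_ hk)) x hx
    have hlN : 0 ≤ Real.log N := Real.log_nonneg (by exact_mod_cast hN.le)
    have h3 : 0 ≤ ((1 + Real.log N) / δ) ^ 3 := by positivity
    have h4 : C0 ≤ C0 * (2 / c) ^ 3 := by nlinarith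
    exact mul_le_mul_of_nonneg_right h4 h3
  · have hX1 : X0 ≤ X := (le_max_left _ _).trans hX
    have hX3 : 3 ≤ X := (le_max_right _ _).trans hX
    have hX3r : (3 : ℝ) ≤ X := by exact_mod_cast hX3
    have hlX : 1 ≤ Real.log X := by
      rw [Real.le_log_iff_exp_le (by linarith)]
      have := Real.exp_one_lt_d9
      linarith
    obtain ⟨h1, h2⟩ := hX0 X hX1
    have hset : Quadratic X = Pool.Agent.H306R2.RG.LnkC.RPC ∩ {p | p.1 ≤ X} := rfl
    rw [hset]
    refine ⟨h1, h2.trans ?_⟩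
    have hsub : (Pool.Agent.H306R2.RG.LnkC.RPC ∩ {p | p.1 ≤ X} ∩
          {p | ∃ _ : NeZero p.1, Pool.Agent.Run7.h473.RM.NoZero p.2 (c / Real.log X)}) ⊆
        (Pool.Agent.H306R2.RG.LnkC.RPC ∩ {p | p.1 ≤ X}) ∩
          {p | ∀ k : ℕ, C0 * (2 / c) ^ 3 * (Real.log X) ^ 6 ≤ k → ∀ x : ℝ, 1 < x →
            0 < R p.2 k x} := by
      rintro p ⟨hp1, hNz, hz⟩
      refine ⟨hp1, fun k hk x hx => ?_⟩
      obtain ⟨⟨hp0, hprim, hsq, hne⟩, hle⟩ := hp1
      have hN1 : 1 < p.1 := by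
        have := N_ne_one p.2 hne
        omega
      have hNX : Real.log p.1 ≤ Real.log X := by
        have h3 : (0 : ℝ) < p.1 := by
          have : 0 < p.1 := by omega
          exact_mod_cast this
        exact Real.log_le_log h3 (by exact_mod_cast hle)
      have hlN : 0 ≤ Real.log p.1 := Real.log_nonneg (by exact_mod_cast hN1.le)
      refine R_pos p.2 k (h p.1 p.2 hN1 hprim hsq (c / Real.log X) (by positivity) ?_ hz k
        (le_trans ?_ hk)) x hx
      · rw [div_le_iff₀ (by linarith)]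
        linarith
      · have h3 : (1 + Real.log p.1) / (c / Real.log X) ≤ 2 / c * (Real.log X) ^ 2 := by
          rw [div_div_eq_mul_div, div_mul_eq_mul_div]
          refine div_le_div_of_nonneg_right ?_ hc.le
          have h4 : (1 + Real.log p.1) * Real.log X ≤ (2 * Real.log X) * Real.log X :=
            mul_le_mul_of_nonneg_right (by linarith) (by linarith)
          calc (1 + Real.log p.1) * Real.log X ≤ (2 * Real.log X) * Real.log X := h4
            _ = _ := by ring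
        calc C0 * ((1 + Real.log p.1) / (c / Real.log X)) ^ 3
            ≤ C0 * (2 / c * (Real.log X) ^ 2) ^ 3 := by gcongr
          _ = _ := by ring
    exact_mod_cast Set.ncard_le_ncard hsub (h1.subset Set.inter_subset_left)

end Pool.Agent.Results.MP_0016c7_nt.RieszMeansPositive
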